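import Pool.Agent.helper84.NR.Spec

set_option autoImplicit false

namespace Pool.Agent.helper84.NR

open scoped Classical
open Finset

lemma DEG_two {V F : Type} (hI : IDX_stmt) (M : Cyc V F) (A : F) (v : V) (h : OnV M A v) :
    ∃ p q, p ≠ q ∧ ∀ w, OnE M A s(v, w) ↔ (w = p ∨ w = q) := by
  obtain ⟨k0, hk⟩ := h
  obtain ⟨i1, -, i3, -, i5⟩ := hI V F M A k0
  have h3 := M.three A
  refine ⟨M.bd A (k0 + 1), M.bd A (k0 + (M.len A - 1)), ?_, ?_⟩
  · intro h
    have := i1 1 (M.len A - 1) (by omega) (by omega) h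
    omega
  · intro w
    constructor
    · intro hw
      obtain ⟨a, ha, he⟩ := i3 _ hw
      rcases Sym2.eq_iff.1 he with ⟨h1, h2⟩ | ⟨h1, h2⟩
      · have h0 : M.bd A (k0 + 0) = M.bd A (k0 + a) := hk.trans h1
        have h4 := i1 0 a (by omega) ha h0
        subst h4
        exact Or.inl h2
      · by_cases hl : a + 1 < M.len A
        · have h0 : M.bd A (k0 + 0) = M.bd A (k0 + (a + 1)) := hk.trans h1
          have h4 := i1 0 (a + 1) (by omega) hl h0
          omega
        · have h4 : a = M.len A - 1 := by omega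
          subst h4
          exact Or.inr h2
    · rintro (rfl | rfl)
      · exact ⟨k0, by rw [hk]⟩
      · refine ⟨k0 + (M.len A - 1), ?_⟩
        have h4 : k0 + (M.len A - 1) + 1 = k0 + M.len A := by omega
        rw [h4, i5, hk, Sym2.eq_swap]

lemma DEG_1 {V F : Type} (M : PMap V F) (z v : V) (A A' : F) (hv : v ≠ z)
    (hn : ¬ Adj M.toCyc z v) (h1 : OnV M.toCyc A z) (h2 : OnV M.toCyc A v)
    (h3 : OnV M.toCyc A' z) (h4 : OnV M.toCyc A' v) : A = A' := by
  by_contra hne
  exact hn ⟨A, (M.poly A A' hne z v hv.symm h1 h2 h3 h4).1⟩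

lemma DEG_2 {V F : Type} (hE : EDG_stmt) (M : PMap V F) (z v : V) (hA : Adj M.toCyc z v) :
    ∃ A1 A2, A1 ≠ A2 ∧ OnE M.toCyc A1 s(z, v) ∧ OnE M.toCyc A2 s(z, v) ∧
      ∀ A, (OnV M.toCyc A z ∧ OnV M.toCyc A v) ↔ (A = A1 ∨ A = A2) := by
  obtain ⟨E1, E2⟩ := hE V F M
  obtain ⟨f, hf⟩ := hA
  obtain ⟨g, hg, hge, hall⟩ := M.two _ f hf
  refine ⟨f, g, hg.symm, hf, hge, fun A => ⟨fun ⟨h1, h2⟩ => hall A (E2 A z v ⟨f, hf⟩ h1 h2), ?_⟩⟩
  rintro (rfl | rfl)
  · exact ⟨(E1 _ z v hf).1, (E1 _ z v hf).2.1⟩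
  · exact ⟨(E1 _ z v hge).1, (E1 _ z v hge).2.1⟩

lemma DEG_card {α : Type} [Fintype α] (P : α → Prop) [DecidablePred P] (a b : α) (hab : a ≠ b)
    (h : ∀ x, P x ↔ (x = a ∨ x = b)) : (univ.filter P).card = 2 := by
  have : univ.filter P = {a, b} := by
    ext x
    simp [h]
  rw [this, card_pair hab]

theorem DEG (hI : IDX_stmt) (hE : EDG_stmt) : DEG_stmt := by
  intro V F _ _ M z
  have hE' := hE V F M
  obtain ⟨E1, E2⟩ := hE'
  have p2 : ∀ v, Adj M.toCyc z v →
      (univ.filter (fun A => OnV M.toCyc A z ∧ OnV M.toCyc A v)).card = 2 := by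
    intro v hA
    obtain ⟨A1, A2, hne, -, -, hall⟩ := DEG_2 hE M z v hA
    exact DEG_card _ A1 A2 hne hall
  have p3 : ∀ A, OnV M.toCyc A z →
      (univ.filter (fun v => Adj M.toCyc z v ∧ OnV M.toCyc A v)).card = 2 := by
    intro A hA
    obtain ⟨p, q, hpq, hall⟩ := DEG_two hI M.toCyc A z hA
    refine DEG_card _ p q hpq (fun w => ?_)
    rw [← hall w]
    constructor
    · rintro ⟨h1, h2⟩
      exact E2 A z w h1 hA h2
    · intro h
      exact ⟨⟨A, h⟩, (E1 A z w h).2.1⟩
  refine ⟨fun v A A' hv hn h1 h2 h3 h4 => DEG_1 M z v A A' hv hn h1 h2 h3 h4, p2, p3, ?_, ?_⟩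
  · have h := card_mul_eq_card_mul (s := univ.filter (fun A => OnV M.toCyc A z))
      (t := univ.filter (fun v => Adj M.toCyc z v)) (fun A v => OnV M.toCyc A v) (m := 2) (n := 2)
      (by
        intro A hA
        rw [mem_filter] at hA
        rw [bipartiteAbove, filter_filter]
        exact p3 A hA.2)
      (by
        intro v hv
        rw [mem_filter] at hv
        rw [bipartiteBelow, filter_filter]
        exact p2 v hv.2)
    omega
  · rintro v hv ⟨A, hAz, hAv⟩
    by_cases hadj : Adj M.toCyc z v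
    · obtain ⟨A1, A2, hne, h1, h2, hall⟩ := DEG_2 hE M z v hadj
      have key : ∀ B, OnE M.toCyc B s(z, v) → ∃ w, w ≠ z ∧ w ≠ v ∧ ∀ u, OnE M.toCyc B s(v, u) ↔
          (u = z ∨ u = w) := by
        intro B hB
        have hBv : OnV M.toCyc B v := (E1 B z v hB).2.1
        obtain ⟨p, q, hpq, hpq2⟩ := DEG_two hI M.toCyc B v hBv
        have hz : z = p ∨ z = q := by
          rw [← hpq2 z, Sym2.eq_swap]
          exact hB
        rcases hz with rfl | rfl
        · refine ⟨q, hpq.symm, ?_, hpq2⟩
          rintro rfl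
          exact (E1 B q q ((hpq2 q).2 (Or.inr rfl))).2.2 rfl
        · refine ⟨p, hpq, ?_, fun u => by rw [hpq2 u, or_comm]⟩
          rintro rfl
          exact (E1 B p p ((hpq2 p).2 (Or.inl rfl))).2.2 rfl
      obtain ⟨w1, w1z, w1v, hw1⟩ := key A1 h1
      obtain ⟨w2, w2z, w2v, hw2⟩ := key A2 h2
      have hw12 : w1 ≠ w2 := by
        rintro rfl
        have a1 := E1 A1 z v h1
        have a2 := E1 A2 z v h2
        have b1 := (E1 A1 v w1 ((hw1 w1).2 (Or.inr rfl))).2.1
        have b2 := (E1 A2 v w1 ((hw2 w1).2 (Or.inr rfl))).2.1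
        rcases (M.poly A1 A2 hne z v a1.2.2 a1.1 a1.2.1 a2.1 a2.2.1).2.2 w1 b1 b2 with h | h
        · exact w1z h
        · exact w1v h
      refine DEG_card _ s(v, w1) s(v, w2) ?_ ?_
      · intro h
        rw [Sym2.congr_right] at h
        exact hw12 h
      · intro e
        constructor
        · rintro ⟨hve, hze, B, hBz, hBe⟩
          obtain ⟨u, rfl⟩ := hve
          have hBv := (E1 B v u hBe).1
          have huz : u ≠ z := by
            rintro rfl
            exact hze (by simp)
          rcases (hall B).1 ⟨hBz, hBv⟩ with rfl | rfl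
          · rcases (hw1 u).1 hBe with h | h
            · exact absurd h huz
            · exact Or.inl (by rw [h])
          · rcases (hw2 u).1 hBe with h | h
            · exact absurd h huz
            · exact Or.inr (by rw [h])
        · rintro (rfl | rfl)
          · refine ⟨by simp, ?_, A1, (E1 A1 z v h1).1, (hw1 w1).2 (Or.inr rfl)⟩
            rw [Sym2.mem_iff]
            rintro (h | h)
            · exact hv h.symm
            · exact w1z h.symm
          · refine ⟨by simp, ?_, A2, (E1 A2 z v h2).1, (hw2 w2).2 (Or.inr rfl)⟩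
            rw [Sym2.mem_iff]
            rintro (h | h)
            · exact hv h.symm
            · exact w2z h.symm
    · obtain ⟨p, q, hpq, hpq2⟩ := DEG_two hI M.toCyc A v hAv
      have hnz : ∀ u, OnE M.toCyc A s(v, u) → u ≠ z := by
        rintro u hu rfl
        exact hadj ⟨A, by rw [Sym2.eq_swap]; exact hu⟩
      refine DEG_card _ s(v, p) s(v, q) ?_ ?_
      · intro h
        rw [Sym2.congr_right] at h
        exact hpq h
      · intro e
        constructor
        · rintro ⟨hve, hze, B, hBz, hBe⟩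
          obtain ⟨u, rfl⟩ := hve
          have hBv := (E1 B v u hBe).1
          have hBA : B = A := DEG_1 M z v B A hv hadj hBz hBv hAz hAv
          subst hBA
          rcases (hpq2 u).1 hBe with h | h
          · exact Or.inl (by rw [h])
          · exact Or.inr (by rw [h])
        · rintro (rfl | rfl)
          · have h := (hpq2 p).2 (Or.inl rfl)
            refine ⟨by simp, ?_, A, hAz, h⟩
            rw [Sym2.mem_iff]
            rintro (h' | h')
            · exact hv h'.symm
            · exact hnz p h h'.symm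
          · have h := (hpq2 q).2 (Or.inr rfl)
            refine ⟨by simp, ?_, A, hAz, h⟩
            rw [Sym2.mem_iff]
            rintro (h' | h')
            · exact hv h'.symm
            · exact hnz q h h'.symm

end Pool.Agent.helper84.NR
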