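import Pool.Agent.helper84.NR.Spec

set_option autoImplicit false

namespace Pool.Agent.helper84.NR

open scoped Classical
open Finset

lemma EDG_ne {V F : Type} (hIDX : IDX_stmt) (M : Cyc V F) (f : F) (k : ℕ) :
    M.bd f k ≠ M.bd f (k + 1) := by
  intro h
  have h3 := M.three f
  have := (hIDX V F M f k).1 0 1 (by omega) (by omega) h
  omega

lemma EDG_fst {V F : Type} (hIDX : IDX_stmt) (M : Cyc V F) (f : F) (u v : V)
    (h : OnE M f s(u, v)) : OnV M f u ∧ OnV M f v ∧ u ≠ v := by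
  obtain ⟨k, hk⟩ := h
  have hne := EDG_ne hIDX M f k
  rcases Sym2.eq_iff.1 hk with ⟨h1, h2⟩ | ⟨h1, h2⟩
  · subst h1 h2
    exact ⟨⟨k, rfl⟩, ⟨k + 1, rfl⟩, hne⟩
  · subst h1 h2
    exact ⟨⟨k + 1, rfl⟩, ⟨k, rfl⟩, hne.symm⟩

theorem EDG (hIDX : IDX_stmt) : EDG_stmt := by
  intro V F M
  refine ⟨fun f u v h => EDG_fst hIDX M.toCyc f u v h, ?_⟩
  intro f u v hA hu hv
  obtain ⟨g, hg⟩ := hA
  obtain ⟨gu, gv, hne⟩ := EDG_fst hIDX M.toCyc g u v hg
  by_cases hfg : f = g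
  · subst hfg
    exact hg
  · exact (M.poly f g hfg u v hne hu hv gu gv).1

end Pool.Agent.helper84.NR
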