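import Pool.Agent.helper56.NR.Spec

/-!
# Project nr: (MP_af9036_an), module RCT (helper12): the contradiction at a first entry time
-/

set_option autoImplicit false

open Complex Metric Set Filter Topology MeasureTheory Pool.Agent.helper98.ILF

open EX (ff)

noncomputable section

namespace NR

theorem RCT_min (n : ℕ) (c x : ℂ) (hx : ∀ k, (ff n c)^[k] x ≠ 0) (T : ℕ) :
    ∃ δ : ℝ, 0 < δ ∧ ∀ k < T, δ < ‖(ff n c)^[k] x‖ := by
  induction T with
  | zero => exact ⟨1, one_pos, fun k hk => absurd hk (Nat.not_lt_zero k)⟩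
  | succ T ih =>
    obtain ⟨δ, hδ, h⟩ := ih
    have hp : 0 < ‖(ff n c)^[T] x‖ := norm_pos_iff.2 (hx T)
    refine ⟨min δ (‖(ff n c)^[T] x‖ / 2), lt_min hδ (half_pos hp), fun k hk => ?_⟩
    rcases Nat.lt_succ_iff_lt_or_eq.1 hk with h1 | h1
    · exact lt_of_le_of_lt (min_le_left _ _) (h k h1)
    · subst h1
      exact lt_of_le_of_lt (min_le_right _ _) (half_lt_self hp)

theorem RCT (hCHA : CHA_stmt) (hMIC : MIC_stmt) (hLFD : LFD_stmt) : RCT_stmt := by
  obtain ⟨C, hC1, hCHA⟩ := hCHA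
  obtain ⟨M₁, hM1, hMIC⟩ := hMIC C hC1
  refine ⟨M₁, hM1, ?_⟩
  rintro n c x M ξ₀ hn hM hξ hint hper hexp hx0 hrec ⟨T, hT⟩
  have hC0 : 0 < C := lt_of_lt_of_le one_pos hC1
  have hc0 : c ≠ 0 := by
    intro h0
    apply hper 1 le_rfl
    rw [vv_succ, vv_zero, h0, zero_pow (by omega), zero_add]
  have hcp : 0 < ‖c‖ := norm_pos_iff.2 hc0
  obtain ⟨δ, hδ, hδT⟩ := RCT_min n c x hx0 T
  set R : ℝ := min (min δ ξ₀) (‖c‖ / 3) with hR
  have hR0 : 0 < R := lt_min (lt_min hδ hξ) (by positivity)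
  have hRδ : R ≤ δ := (min_le_left _ _).trans (min_le_left _ _)
  have hRξ : R ≤ ξ₀ := (min_le_left _ _).trans (min_le_right _ _)
  have hRc : R ≤ ‖c‖ / 3 := min_le_right _ _
  clear_value R
  have hex : ∃ k : ℕ, ‖(ff n c)^[k] x‖ ≤ R := by
    obtain ⟨k, hk⟩ := hrec R hR0
    exact ⟨k, hk.le⟩
  classical
  obtain ⟨t, htR, hmin⟩ : ∃ t : ℕ, ‖(ff n c)^[t] x‖ ≤ R ∧ ∀ k < t, R < ‖(ff n c)^[k] x‖ :=
    ⟨Nat.find hex, Nat.find_spec hex, fun k hk => not_le.1 (Nat.find_min hex hk)⟩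
  have hTt : T ≤ t := by
    by_contra hlt
    push Not at hlt
    have := hδT t hlt
    linarith
  have hρ0 : (0 : ℝ) < 11 / 10 * R := by positivity
  rcases hLFD n c x t (11 / 10 * R) (by omega) hρ0 with ⟨G, hG, hGx⟩ | ⟨m₀, hm₀, h, hh, hhy, hmem, hhc⟩
  · -- first alternative
    set y : ℂ := (ff n c)^[t] x with hy
    have hρc : ((11 / 10 * R : ℝ) : ℂ) ≠ 0 := by exact_mod_cast hρ0.ne'
    have hmaps : ∀ z ∈ ball (0 : ℂ) 1, y + ((11 / 10 * R : ℝ) : ℂ) * z ∈ ball y (11 / 10 * R) := by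
      intro z hz
      rw [mem_ball_zero_iff] at hz
      rw [mem_ball, dist_eq_norm, add_sub_cancel_left, norm_mul, Complex.norm_real,
        Real.norm_of_nonneg hρ0.le]
      calc 11 / 10 * R * ‖z‖ < 11 / 10 * R * 1 := by gcongr
        _ = 11 / 10 * R := mul_one _
    refine hT t hTt (fun z => y + ((11 / 10 * R : ℝ) : ℂ) * z)
      (fun z => G (y + ((11 / 10 * R : ℝ) : ℂ) * z)) (-y / ((11 / 10 * R : ℝ) : ℂ)) ?_ ?_ ?_ ?_ ?_ ?_ ?_
    · exact (by fun_prop : Differentiable ℂ (fun z : ℂ => y + ((11 / 10 * R : ℝ) : ℂ) * z)).differentiableOn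
    · intro a _ b _ hab
      have : ((11 / 10 * R : ℝ) : ℂ) * a = ((11 / 10 * R : ℝ) : ℂ) * b := add_left_cancel hab
      exact mul_left_cancel₀ hρc this
    · exact hG.1.comp
        (by fun_prop : Differentiable ℂ (fun z : ℂ => y + ((11 / 10 * R : ℝ) : ℂ) * z)).differentiableOn
        hmaps
    · intro z hz
      exact hG.2 _ (hmaps z hz)
    · show G (y + ((11 / 10 * R : ℝ) : ℂ) * 0) = x
      rw [mul_zero, add_zero]
      exact hGx
    · rw [norm_div, norm_neg, Complex.norm_real, Real.norm_of_nonneg hρ0.le, div_le_iff₀ hρ0]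
      linarith
    · show y + ((11 / 10 * R : ℝ) : ℂ) * (-y / ((11 / 10 * R : ℝ) : ℂ)) = 0
      rw [mul_div_cancel₀ _ hρc, add_neg_cancel]
  · -- second alternative
    set y : ℂ := (ff n c)^[t] x with hy
    have hRn : 0 < R ^ n := pow_pos hR0 n
    have hB : 0 < R ^ n / (2 * C) := by positivity
    have hη : ∀ j ≤ m₀, R ^ n ≤ ‖(ff n c)^[j] (h y) - c‖ := by
      intro j hj
      have h1 : (ff n c)^[j] (h y) = ff n c ((ff n c)^[t - m₀ + j - 1] x) := by
        have hk : j + (t - m₀) = (t - m₀ + j - 1) + 1 := by omega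
        rw [hhy, ← Function.iterate_add_apply, hk, Function.iterate_succ_apply']
      have h2 : ff n c ((ff n c)^[t - m₀ + j - 1] x) - c = ((ff n c)^[t - m₀ + j - 1] x) ^ n := by
        unfold ff
        ring
      rw [h1, h2, norm_pow]
      exact pow_le_pow_left₀ hR0.le (hmin _ (by omega)).le n
    have hcy : 9 / 5 * (11 / 10 * R) ≤ ‖c - y‖ := by
      have h1 : ‖c‖ - ‖y‖ ≤ ‖c - y‖ := norm_sub_norm_le c y
      linarith
    have key := hCHA n c y (11 / 10 * R) (R ^ n / (2 * C)) (R ^ n) m₀ h hn hρ0 hB hRn hper hh hmem hhc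
      hη hcy (fun m l G hm1 _ hd hl0 hl hG hGc =>
        hMIC n c y M ξ₀ R hn hM hR0 hRξ hint hper hexp htR m l G hm1 (by linarith) hl0 (by linarith)
          hG hGc)
    have h3 : C * (R ^ n / (2 * C)) = R ^ n / 2 := by
      field_simp
    rw [h3] at key
    linarith

end NR
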